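import Pool.Agent.H82.RP.TA
import Pool.Agent.H82.RP.TB
import Pool.Agent.H82.RP.TC

/-!
# Board rpw_modules, row S3: two windows
-/

set_option autoImplicit false

open Finset Real ArithmeticFunction
open scoped Nat ArithmeticFunction.Moebius

namespace Pool.Agent.H86.RP

open Pool.Agent.H30.BV (NX)
open Pool.Agent.H31.MP (RS Rgh Pz Me Om)
open Pool.Agent.H82.RP

lemma nS_le (S : Finset ℕ) (p : ℕ) : nS S p ≤ p := by
  unfold nS
  exact (card_filter_le _ _).trans (by simp)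

lemma VS_nonneg (y₀ : ℕ) (z : ℝ) (S : Finset ℕ) : 0 ≤ VS y₀ z S := by
  unfold VS
  refine prod_nonneg fun p hp => ?_
  have h := nS_le S p
  have hp' : 0 < p := by
    unfold Pz at hp
    rw [mem_filter] at hp
    exact hp.2.1.pos
  have : (nS S p : ℝ) / p ≤ 1 := by
    rw [div_le_one (by exact_mod_cast hp')]
    exact_mod_cast h
  linarith

lemma VS_empty (y₀ : ℕ) (z : ℝ) : VS y₀ z ∅ = 1 := by
  unfold VS
  refine prod_eq_one fun p _ => ?_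
  have : nS ∅ p = 0 := by unfold nS; simp
  rw [this]; simp

lemma OS_empty (X : ℝ) (y₀ : ℕ) (z : ℝ) : OS X y₀ z ∅ = Om X y₀ := by
  classical
  ext n
  unfold OS
  rw [mem_filter]
  refine ⟨fun h => h.1, fun h => ⟨h, ?_⟩⟩
  intro p _ s hs
  simp at hs

lemma EE_nonneg (X : ℝ) (y₀ : ℕ) (z : ℝ) (S : Finset ℕ) : 0 ≤ EE X y₀ z S := by
  unfold EE
  exact mul_nonneg (by positivity) (VS_nonneg _ _ _)

lemma sum_HS {m : ℕ} (T : Finset (Fin m)) (K : ℕ) (f : Finset (Fin m) → ℝ) :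
    ∑ H ∈ HS T K, f H = ∑ s ∈ range (K + 1), ∑ H ∈ T.powersetCard s, f H := by
  classical
  unfold HS
  rw [← sum_fiberwise_of_maps_to (s := T.powerset.filter fun H => H.card ≤ K)
    (t := range (K + 1)) (g := fun H => H.card)
    (fun H hH => by rw [mem_filter] at hH; rw [mem_range]; omega)]
  refine sum_congr rfl fun s hs => sum_congr ?_ fun _ _ => rfl
  rw [mem_range] at hs
  ext H
  simp only [mem_filter, mem_powerset, mem_powersetCard]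
  constructor
  · rintro ⟨⟨h1, _⟩, h3⟩
    exact ⟨h1, h3⟩
  · rintro ⟨h1, h3⟩
    exact ⟨⟨h1, by omega⟩, h3⟩

lemma card_HS {m : ℕ} (T : Finset (Fin m)) (K : ℕ) :
    ((HS T K).card : ℝ) ≤ ((m : ℝ) + 1) ^ K := by
  have h1 : ((HS T K).card : ℝ) = ∑ s ∈ range (K + 1), ((T.card.choose s : ℕ) : ℝ) := by
    have := sum_HS T K (fun _ => 1)
    simpa [card_powersetCard] using this
  rw [h1, add_pow]
  refine sum_le_sum fun s hs => ?_
  rw [mem_range] at hs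
  have hT : T.card ≤ m := by simpa using card_le_univ T
  have h2 : T.card.choose s ≤ m ^ s :=
    (Nat.choose_le_pow T.card s).trans (Nat.pow_le_pow_left hT s)
  have h3 : 1 ≤ K.choose s := Nat.choose_pos (by omega)
  have h4 : ((T.card.choose s : ℕ) : ℝ) ≤ (m : ℝ) ^ s := by exact_mod_cast h2
  have h5 : (1 : ℝ) ≤ (K.choose s : ℝ) := by exact_mod_cast h3
  rw [one_pow, mul_one]
  calc ((T.card.choose s : ℕ) : ℝ) ≤ (m : ℝ) ^ s := h4
    _ = (m : ℝ) ^ s * 1 := by ring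
    _ ≤ (m : ℝ) ^ s * (K.choose s : ℝ) := mul_le_mul_of_nonneg_left h5 (by positivity)

lemma mem_ps {m : ℕ} {a : ℕ} {H : Finset (Fin m)} {x : ℕ} (hx : x ∈ ps a H) :
    a ≤ x ∧ x < a + m := by
  unfold ps at hx
  rw [mem_image] at hx
  obtain ⟨i, _, rfl⟩ := hx
  unfold pw
  have := i.2
  omega

lemma card_ps {m : ℕ} (a : ℕ) (H : Finset (Fin m)) : (ps a H).card ≤ H.card := by
  unfold ps; exact card_image_le

lemma card_HS_mem {m : ℕ} {T H : Finset (Fin m)} {K : ℕ} (h : H ∈ HS T K) : H.card ≤ K := by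
  unfold HS at h
  rw [mem_filter] at h
  exact h.2

lemma WG_mono {I : Type} [Fintype I] [DecidableEq I] {U V : Finset I} {z Y C : ℝ}
    {l : (I → ℕ) → ℝ} (h : WG U z Y C l) (hUV : U ⊆ V) : WG V z Y C l where
  supp := fun d hd => ⟨(h.supp d hd).1, (h.supp d hd).2.1, fun i hi =>
    (h.supp d hd).2.2 i fun h' => hi (hUV h')⟩
  bd := h.bd

/-- the index set of the pairs -/
noncomputable def GG2 (y₀ K m a a' : ℕ) : Finset (Finset (Fin m ⊕ Fin m)) :=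
  ((HS (Ad y₀ a m) K) ×ˢ (HS (Ad y₀ a' m) K)).image fun p => p.1.disjSum p.2

lemma disjSum_inj' {m : ℕ} (p q : Finset (Fin m) × Finset (Fin m))
    (h : p.1.disjSum p.2 = q.1.disjSum q.2) : p = q := by
  have h1 : (p.1.disjSum p.2).toLeft = (q.1.disjSum q.2).toLeft := by rw [h]
  have h2 : (p.1.disjSum p.2).toRight = (q.1.disjSum q.2).toRight := by rw [h]
  rw [toLeft_disjSum, toLeft_disjSum] at h1
  rw [toRight_disjSum, toRight_disjSum] at h2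
  exact Prod.ext h1 h2

lemma sum_GG2 (y₀ K m a a' : ℕ) (f : Finset (Fin m ⊕ Fin m) → ℝ) :
    ∑ G ∈ GG2 y₀ K m a a', f G =
      ∑ H ∈ HS (Ad y₀ a m) K, ∑ H' ∈ HS (Ad y₀ a' m) K, f (H.disjSum H') := by
  unfold GG2
  rw [sum_image (fun p _ q _ h => disjSum_inj' p q h), sum_product]

lemma image_disjSum {m : ℕ} (a a' : ℕ) (H H' : Finset (Fin m)) :
    (H.disjSum H').image (Sum.elim (pw a) (pw a')) = ps a H ∪ ps a' H' := by
  ext x
  simp only [ps, mem_image, mem_union, mem_disjSum]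
  constructor
  · rintro ⟨b, (⟨c, hc, rfl⟩ | ⟨c, hc, rfl⟩), rfl⟩
    · exact Or.inl ⟨c, hc, rfl⟩
    · exact Or.inr ⟨c, hc, rfl⟩
  · rintro (⟨c, hc, rfl⟩ | ⟨c, hc, rfl⟩)
    · exact ⟨Sum.inl c, Or.inl ⟨c, hc, rfl⟩, rfl⟩
    · exact ⟨Sum.inr c, Or.inr ⟨c, hc, rfl⟩, rfl⟩

lemma RH_union (y₀ : ℕ) (z : ℝ) (S T : Finset ℕ) (n : ℕ) :
    RH y₀ z (S ∪ T) n ↔ RH y₀ z S n ∧ RH y₀ z T n := by
  unfold RH
  constructor
  · intro h
    exact ⟨fun p hp s hs => h p hp s (mem_union_left _ hs),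
      fun p hp s hs => h p hp s (mem_union_right _ hs)⟩
  · rintro ⟨h1, h2⟩ p hp s hs
    rcases mem_union.mp hs with h | h
    · exact h1 p hp s h
    · exact h2 p hp s h

open Classical in
lemma tw_mul_tw (h9 : T_TEN) {m y₀ K : ℕ} {z Y C : ℝ} {g : ℕ → ℝ} (hY : 1 ≤ Y) (hC : 0 ≤ C)
    (a a' n : ℕ) (hWG : ∀ H : Finset (Fin m), H.card ≤ K → WG H z Y C (LH z Y g H)) :
    tw m y₀ K z Y g a n * tw m y₀ K z Y g a' n =
      ∑ G ∈ GG2 y₀ K m a a', if RH y₀ z (G.image (Sum.elim (pw a) (pw a'))) n then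
        LG z (Y * Y) (ten2 (LH z Y g G.toLeft) (LH z Y g G.toRight))
          (Sum.elim (pw a) (pw a')) n else 0 := by
  rw [sum_GG2]
  unfold tw
  rw [sum_mul_sum]
  refine sum_congr rfl fun H hH => sum_congr rfl fun H' hH' => ?_
  rw [image_disjSum, toLeft_disjSum, toRight_disjSum]
  have hW := hWG H (card_HS_mem hH)
  have hW' := hWG H' (card_HS_mem hH')
  have h := (h9 (Fin m) (Fin m) z Y Y hY hY H H' C C (LH z Y g H) (LH z Y g H) (LH z Y g H')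
    (LH z Y g H') hC hW hW hW' hW').2.2 (pw a) (pw a') n
  rw [h]
  by_cases c1 : RH y₀ z (ps a H) n
  · by_cases c2 : RH y₀ z (ps a' H') n
    · rw [if_pos c1, if_pos c2, if_pos ((RH_union _ _ _ _ _).mpr ⟨c1, c2⟩)]
    · rw [if_pos c1, if_neg c2, if_neg (fun h => c2 ((RH_union _ _ _ _ _).mp h).2), mul_zero]
  · rw [if_neg c1, if_neg (fun h => c1 ((RH_union _ _ _ _ _).mp h).1), zero_mul]

lemma QB_G (h2 : T_QHH) (h9 : T_TEN) {m K : ℕ} {z Y C : ℝ} {g : ℕ → ℝ} (hg : GH z Y g)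
    (hY : 1 ≤ Y) (hC : 0 ≤ C)
    (hWG : ∀ H : Finset (Fin m), H.card ≤ K → WG H z Y C (LH z Y g H))
    (H₁ H₂ H₁' H₂' : Finset (Fin m)) (c1 : H₁.card ≤ K) (c2 : H₂.card ≤ K)
    (c3 : H₁'.card ≤ K) (c4 : H₂'.card ≤ K) :
    QB z (Y * Y) (ten2 (LH z Y g H₁) (LH z Y g H₁')) (ten2 (LH z Y g H₂) (LH z Y g H₂')) =
      (if H₁ = H₂ then qq z Y g H₁.card else 0) *
        (if H₁' = H₂' then qq z Y g H₁'.card else 0) := by
  rw [← h2 m z Y g H₁ H₂ hY hg, ← h2 m z Y g H₁' H₂' hY hg]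
  exact (h9 (Fin m) (Fin m) z Y Y hY hY (H₁ ∪ H₂) (H₁' ∪ H₂') C C _ _ _ _ hC
    (WG_mono (hWG H₁ c1) subset_union_left) (WG_mono (hWG H₂ c2) subset_union_right)
    (WG_mono (hWG H₁' c3) subset_union_left) (WG_mono (hWG H₂' c4) subset_union_right)).2.1

lemma sum_HS_weight {m : ℕ} (T : Finset (Fin m)) (K : ℕ) (q : ℕ → ℝ) (hq : ∀ s, 0 ≤ q s)
    (V : Finset (Fin m) → ℝ) (L v : ℝ)
    (hV : ∀ s, s ≤ K → ∑ H ∈ T.powersetCard s, V H ≤ L ^ s / (s ! : ℝ) * v) :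
    ∑ H ∈ HS T K, V H * q H.card ≤ (∑ s ∈ range (K + 1), L ^ s / (s ! : ℝ) * q s) * v := by
  rw [sum_HS, sum_mul]
  refine sum_le_sum fun s hs => ?_
  rw [mem_range] at hs
  have h1 : ∑ H ∈ T.powersetCard s, V H * q H.card = (∑ H ∈ T.powersetCard s, V H) * q s := by
    rw [sum_mul]
    refine sum_congr rfl fun H hH => ?_
    rw [(mem_powersetCard.mp hH).2]
  rw [h1]
  calc (∑ H ∈ T.powersetCard s, V H) * q s ≤ L ^ s / (s ! : ℝ) * v * q s :=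
        mul_le_mul_of_nonneg_right (hV s (by omega)) (hq s)
    _ = L ^ s / (s ! : ℝ) * q s * v := by ring

lemma main_bound (y₀ K m a a' : ℕ) (z L : ℝ) (T T' : Finset (Fin m)) (q : ℕ → ℝ)
    (hq : ∀ s, 0 ≤ q s) (hL : 0 ≤ L)
    (hV1 : ∀ H ∈ HS T K, ∀ s, s ≤ K →
      ∑ H' ∈ T'.powersetCard s, VS y₀ z (ps a H ∪ ps a' H') ≤
        L ^ s / (s ! : ℝ) * VS y₀ z (ps a H))
    (hV2 : ∀ s, s ≤ K → ∑ H ∈ T.powersetCard s, VS y₀ z (ps a H) ≤ L ^ s / (s ! : ℝ) * 1) :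
    ∑ H ∈ HS T K, ∑ H' ∈ HS T' K, VS y₀ z (ps a H ∪ ps a' H') * (q H.card * q H'.card) ≤
      (∑ s ∈ range (K + 1), L ^ s / (s ! : ℝ) * q s) ^ 2 := by
  set TT' := ∑ s ∈ range (K + 1), L ^ s / (s ! : ℝ) * q s with hTT
  have hTT0 : 0 ≤ TT' := sum_nonneg fun s _ => mul_nonneg (by positivity) (hq s)
  calc ∑ H ∈ HS T K, ∑ H' ∈ HS T' K, VS y₀ z (ps a H ∪ ps a' H') * (q H.card * q H'.card)
      = ∑ H ∈ HS T K, q H.card *
          ∑ H' ∈ HS T' K, VS y₀ z (ps a H ∪ ps a' H') * q H'.card := by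
        refine sum_congr rfl fun H _ => ?_
        rw [mul_sum]
        refine sum_congr rfl fun H' _ => ?_
        ring
    _ ≤ ∑ H ∈ HS T K, q H.card * (TT' * VS y₀ z (ps a H)) := by
        refine sum_le_sum fun H hH => mul_le_mul_of_nonneg_left ?_ (hq _)
        exact sum_HS_weight T' K q hq _ L _ (hV1 H hH)
    _ = TT' * ∑ H ∈ HS T K, VS y₀ z (ps a H) * q H.card := by
        rw [mul_sum]
        refine sum_congr rfl fun H' _ => ?_
        ring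
    _ ≤ TT' * (TT' * 1) :=
        mul_le_mul_of_nonneg_left (sum_HS_weight T K q hq _ L 1 hV2) hTT0
    _ = TT' ^ 2 := by ring

lemma cross_bound (y₀ K m a a' : ℕ) (z D : ℝ) (T T' : Finset (Fin m)) (hD : 0 ≤ D)
    (hV1 : ∀ H₁ ∈ HS T K, ∀ H₂ ∈ HS T K,
      ∑ H ∈ HS T' K, ∑ H' ∈ HS T' K,
        VS y₀ z ((ps a H₁ ∪ ps a H₂) ∪ (ps a' H ∪ ps a' H')) ≤
        D * VS y₀ z (ps a H₁ ∪ ps a H₂))
    (hV2 : ∑ H ∈ HS T K, ∑ H' ∈ HS T K, VS y₀ z (ps a H ∪ ps a H') ≤ D) :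
    ∑ H₁ ∈ HS T K, ∑ H₁' ∈ HS T' K, ∑ H₂ ∈ HS T K, ∑ H₂' ∈ HS T' K,
      VS y₀ z ((ps a H₁ ∪ ps a' H₁') ∪ (ps a H₂ ∪ ps a' H₂')) ≤ D ^ 2 := by
  calc ∑ H₁ ∈ HS T K, ∑ H₁' ∈ HS T' K, ∑ H₂ ∈ HS T K, ∑ H₂' ∈ HS T' K,
      VS y₀ z ((ps a H₁ ∪ ps a' H₁') ∪ (ps a H₂ ∪ ps a' H₂'))
      = ∑ H₁ ∈ HS T K, ∑ H₂ ∈ HS T K, ∑ H₁' ∈ HS T' K, ∑ H₂' ∈ HS T' K,
        VS y₀ z ((ps a H₁ ∪ ps a H₂) ∪ (ps a' H₁' ∪ ps a' H₂')) := by
        refine sum_congr rfl fun H₁ _ => ?_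
        rw [sum_comm]
        refine sum_congr rfl fun H₂ _ => sum_congr rfl fun H₁' _ => sum_congr rfl fun H₂' _ => ?_
        rw [union_union_union_comm]
    _ ≤ ∑ H₁ ∈ HS T K, ∑ H₂ ∈ HS T K, D * VS y₀ z (ps a H₁ ∪ ps a H₂) :=
        sum_le_sum fun H₁ c1 => sum_le_sum fun H₂ c2 => hV1 H₁ c1 H₂ c2
    _ = D * ∑ H₁ ∈ HS T K, ∑ H₂ ∈ HS T K, VS y₀ z (ps a H₁ ∪ ps a H₂) := by
        rw [mul_sum]
        refine sum_congr rfl fun H₁ _ => ?_
        rw [mul_sum]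
    _ ≤ D * D := mul_le_mul_of_nonneg_left hV2 hD
    _ = D ^ 2 := by ring

/-- the choice of `δ₁` -/
lemma exists_delta (D E B : ℝ) (hD : 0 ≤ D) (hE : 0 ≤ E) (hB : 0 ≤ B) :
    ∃ δ₁ : ℝ, 0 < δ₁ ∧ δ₁ ≤ 1 ∧ ∀ δ : ℝ, 0 < δ → δ ≤ δ₁ →
      δ * (4 * (D + E * Real.log (1 + B / δ)) + 6) ≤ 1 / 4 := by
  set M : ℝ := 4 * D + 6 + 8 * E * √(1 + B) with hM
  have hs : 0 ≤ √(1 + B) := Real.sqrt_nonneg _
  have hM6 : 6 ≤ M := by
    have : 0 ≤ 8 * E * √(1 + B) := by positivity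
    rw [hM]; linarith
  have hM0 : 0 < M := by linarith
  refine ⟨min 1 ((1 / (4 * M)) ^ 2), by positivity, min_le_left _ _, fun δ h0 h1 => ?_⟩
  have hδ1 : δ ≤ 1 := h1.trans (min_le_left _ _)
  have hδ2 : δ ≤ (1 / (4 * M)) ^ 2 := h1.trans (min_le_right _ _)
  have hsq : √δ ≤ 1 / (4 * M) := by
    rw [Real.sqrt_le_left (by positivity)]
    exact hδ2
  have hsq0 : 0 ≤ √δ := Real.sqrt_nonneg _
  have hδs : δ = √δ * √δ := (Real.mul_self_sqrt h0.le).symm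
  have hsq1 : √δ ≤ 1 := by
    rw [Real.sqrt_le_left (by norm_num)]; simpa using hδ1
  have hlog : Real.log (1 + B / δ) ≤ 2 * √(1 + B / δ) := by
    have hp : 0 < 1 + B / δ := by positivity
    have h2 : Real.log (√(1 + B / δ)) ≤ √(1 + B / δ) - 1 :=
      Real.log_le_sub_one_of_pos (Real.sqrt_pos.mpr hp)
    have h3 : Real.log (√(1 + B / δ)) = Real.log (1 + B / δ) / 2 := Real.log_sqrt hp.le
    linarith
  have hkey : δ * √(1 + B / δ) ≤ √δ * √(1 + B) := by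
    have e1 : √δ * √(1 + B / δ) = √(δ + B) := by
      rw [← Real.sqrt_mul h0.le]
      congr 1
      field_simp
    calc δ * √(1 + B / δ) = √δ * (√δ * √(1 + B / δ)) := by
          rw [← mul_assoc, ← hδs]
      _ = √δ * √(δ + B) := by rw [e1]
      _ ≤ √δ * √(1 + B) := by
          refine mul_le_mul_of_nonneg_left ?_ hsq0
          exact Real.sqrt_le_sqrt (by linarith)
  have hmain : δ * (4 * (D + E * Real.log (1 + B / δ)) + 6) ≤ √δ * M := by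
    have s1 : δ * (E * Real.log (1 + B / δ)) ≤ 2 * E * (√δ * √(1 + B)) := by
      calc δ * (E * Real.log (1 + B / δ)) ≤ δ * (E * (2 * √(1 + B / δ))) := by
            refine mul_le_mul_of_nonneg_left ?_ h0.le
            exact mul_le_mul_of_nonneg_left hlog hE
        _ = 2 * E * (δ * √(1 + B / δ)) := by ring
        _ ≤ 2 * E * (√δ * √(1 + B)) := mul_le_mul_of_nonneg_left hkey (by positivity)
    have s2 : δ ≤ √δ := by
      calc δ = √δ * √δ := hδs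
        _ ≤ √δ * 1 := mul_le_mul_of_nonneg_left hsq1 hsq0
        _ = √δ := mul_one _
    have s3 : δ * (4 * D + 6) ≤ √δ * (4 * D + 6) :=
      mul_le_mul_of_nonneg_right s2 (by linarith)
    calc δ * (4 * (D + E * Real.log (1 + B / δ)) + 6)
        = δ * (4 * D + 6) + 4 * (δ * (E * Real.log (1 + B / δ))) := by ring
      _ ≤ √δ * (4 * D + 6) + 4 * (2 * E * (√δ * √(1 + B))) := by linarith
      _ = √δ * M := by rw [hM]; ring
  calc δ * (4 * (D + E * Real.log (1 + B / δ)) + 6) ≤ √δ * M := hmain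
    _ ≤ 1 / (4 * M) * M := mul_le_mul_of_nonneg_right hsq hM0.le
    _ = 1 / 4 := by field_simp

lemma mem_GG2 {y₀ K m a a' : ℕ} {G : Finset (Fin m ⊕ Fin m)} (h : G ∈ GG2 y₀ K m a a') :
    ∃ H ∈ HS (Ad y₀ a m) K, ∃ H' ∈ HS (Ad y₀ a' m) K, G = H.disjSum H' := by
  unfold GG2 at h
  rw [mem_image] at h
  obtain ⟨p, hp, rfl⟩ := h
  rw [mem_product] at hp
  exact ⟨p.1, hp.1, p.2, hp.2, rfl⟩

lemma card_GG2 (y₀ K m a a' : ℕ) :
    ((GG2 y₀ K m a a').card : ℝ) ≤ ((m : ℝ) + 1) ^ (2 * K) := by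
  have h1 : (GG2 y₀ K m a a').card ≤ (HS (Ad y₀ a m) K).card * (HS (Ad y₀ a' m) K).card := by
    unfold GG2
    exact card_image_le.trans (by rw [card_product])
  calc ((GG2 y₀ K m a a').card : ℝ)
      ≤ ((HS (Ad y₀ a m) K).card : ℝ) * ((HS (Ad y₀ a' m) K).card : ℝ) := by exact_mod_cast h1
    _ ≤ ((m : ℝ) + 1) ^ K * ((m : ℝ) + 1) ^ K :=
        mul_le_mul (card_HS _ _) (card_HS _ _) (by positivity) (by positivity)
    _ = ((m : ℝ) + 1) ^ (2 * K) := by rw [← pow_add]; congr 1; omega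

lemma disj_ps {m a a' : ℕ} (haa : a + m ≤ a') (S : Finset ℕ) (hS : ∀ x ∈ S, x < a + m)
    (T : Finset (Fin m)) : Disjoint S (ps a' T) := by
  rw [disjoint_left]
  intro x h1 h2
  have := hS x h1
  have := (mem_ps h2).1
  omega

lemma inj_P {m a a' : ℕ} (haa : a + m ≤ a') :
    Function.Injective (Sum.elim (pw a) (pw a') : Fin m ⊕ Fin m → ℕ) := by
  rintro (i | i) (j | j) h
  · simp only [Sum.elim_inl, pw] at h
    exact congrArg Sum.inl (Fin.ext (by omega))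
  · simp only [Sum.elim_inl, Sum.elim_inr, pw] at h
    have := i.2
    omega
  · simp only [Sum.elim_inl, Sum.elim_inr, pw] at h
    have := j.2
    omega
  · simp only [Sum.elim_inr, pw] at h
    exact congrArg Sum.inr (Fin.ext (by omega))

open Classical in
theorem pf_S3 (h1 : T_EXP) (h2 : T_QHH) (h3 : T_QQS) (h4 : T_LBH) (h5 : T_VSU) (h7 : T_VCR)
    (hMR : Pool.Agent.H31.MP.T_MR) (_h8 : T_VRI) (h9 : T_TEN) : T_S3 := by
  intro K η lam t hK hη hη1 ht htl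
  obtain ⟨C₁, hC₁, hEXP⟩ := h1 (2 * K)
  obtain ⟨yU, hVSU⟩ := h5 K η hη
  obtain ⟨CV, yC, hCV, hVCR⟩ := h7 K
  obtain ⟨cM, CM, hcM, hCM, hMR'⟩ := hMR
  have hlam : 0 < lam := ht.trans_le htl
  refine ⟨max (12 * K + 2) (max yU yC), fun y₀ hy₀ => ?_⟩
  have hy1 : 12 * K + 2 ≤ y₀ := (le_max_left _ _).trans hy₀
  have hy2 : yU ≤ y₀ := (le_max_left _ _).trans ((le_max_right _ _).trans hy₀)
  have hy3 : yC ≤ y₀ := (le_max_right _ _).trans ((le_max_right _ _).trans hy₀)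
  set B : ℝ := lam * CM with hB
  have hB0 : 0 ≤ B := by positivity
  set R : ℝ := 8 * (1 + CV ^ 2) / η with hR
  have hR1 : 1 ≤ R := by
    rw [hR, le_div_iff₀ hη]; nlinarith [sq_nonneg CV]
  have hR0 : 0 < R := by linarith
  have hlogR : 0 ≤ Real.log R := Real.log_nonneg hR1
  obtain ⟨δ₁, hδ₁, hδ₁1, hδ⟩ := exists_delta (C₁ * (1 + Real.log R)) (C₁ * (4 * K)) B
    (by positivity) (by positivity) hB0
  refine ⟨δ₁, hδ₁, fun δ hδ0 hδδ H₀ => ?_⟩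
  set PB : ℝ := (1 + B / δ) ^ (4 * K) with hPB
  have hBδ : 0 ≤ B / δ := by positivity
  have hPB1 : 1 ≤ PB := one_le_pow₀ (by linarith)
  have hPB0 : 0 < PB := by linarith
  set ηF : ℝ := 1 / (R * PB) with hηF
  have hηF0 : 0 < ηF := by positivity
  have hηFR : ηF * (8 * (1 + CV ^ 2) * PB) = η := by
    rw [hηF, hR]; field_simp
  have hηF1 : ηF ≤ η := by
    have h : 1 ≤ 8 * (1 + CV ^ 2) * PB := by nlinarith [sq_nonneg CV]
    calc ηF = ηF * 1 := (mul_one _).symm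
      _ ≤ ηF * (8 * (1 + CV ^ 2) * PB) := mul_le_mul_of_nonneg_left h hηF0.le
      _ = η := hηFR
  obtain ⟨b, hb, hE⟩ := hEXP ηF hηF0 (hηF1.trans hη1)
  have hbδ : δ * (4 * b + 6) ≤ 1 / 4 := by
    have e : Real.log (1 / ηF) = Real.log R + 4 * K * Real.log (1 + B / δ) := by
      rw [hηF, one_div_one_div, Real.log_mul hR0.ne' hPB0.ne', hPB, Real.log_pow]
      push_cast; ring
    have hb2 : (b : ℝ) ≤ C₁ * (1 + Real.log R) + C₁ * (4 * K) * Real.log (1 + B / δ) := by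
      rw [e] at hb
      calc (b : ℝ) ≤ _ := hb
        _ = _ := by ring
    have h := hδ δ hδ0 hδδ
    refine le_trans ?_ h
    refine mul_le_mul_of_nonneg_left ?_ hδ0.le
    linarith
  obtain ⟨CL, hCL, hLBH⟩ := h4 K δ hδ0
  set H₀' : ℝ := |H₀| + lam + 1 with hH₀'
  obtain ⟨X₁, hX₁⟩ := hE y₀ 1 δ (CL * CL) H₀' (by omega) hδ0 hbδ (by positivity)
  obtain ⟨X₂, hX₂⟩ := hVSU y₀ hy2 t δ H₀' ht hδ0
  obtain ⟨X₃, hX₃⟩ := hVCR y₀ hy3 t δ H₀' ht hδ0
  set W : ℝ := (primorial y₀ : ℝ) with hW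
  have hW0 : 0 < W := by
    rw [hW]; exact_mod_cast primorial_pos y₀
  refine ⟨max (max X₁ X₂) (max X₃ (max (Real.exp (1 + 4 * W / η)) (2 ^ (1 / δ)))),
    fun Z hZ m a a' g hg htm hml ha' haa => ?_⟩
  have hZ1 : X₁ ≤ Z := (le_max_left _ _).trans ((le_max_left _ _).trans hZ)
  have hZ2 : X₂ ≤ Z := (le_max_right _ _).trans ((le_max_left _ _).trans hZ)
  have hZ3 : X₃ ≤ Z := (le_max_left _ _).trans ((le_max_right _ _).trans hZ)
  have hZ4 : Real.exp (1 + 4 * W / η) ≤ Z :=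
    (le_max_left _ _).trans ((le_max_right _ _).trans ((le_max_right _ _).trans hZ))
  have hZ5 : (2 : ℝ) ^ (1 / δ) ≤ Z :=
    (le_max_right _ _).trans ((le_max_right _ _).trans ((le_max_right _ _).trans hZ))
  have hZpos : 0 < Z := (Real.exp_pos _).trans_le hZ4
  have hWη : 0 < 4 * W / η := by positivity
  have hlogZ : 1 + 4 * W / η ≤ Real.log Z := (Real.le_log_iff_exp_le hZpos).mpr hZ4
  have hlogZ1 : 1 ≤ Real.log Z := by linarith
  have hlogZ0 : 0 < Real.log Z := by linarith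
  have hZtwo : 2 ≤ Z := by
    have := Real.add_one_le_exp (1 + 4 * W / η)
    linarith
  have hzz : 2 ≤ Z ^ δ := by
    calc (2 : ℝ) = ((2 : ℝ) ^ (1 / δ)) ^ δ := by
          rw [← Real.rpow_mul (by norm_num), one_div, inv_mul_cancel₀ hδ0.ne', Real.rpow_one]
      _ ≤ Z ^ δ := Real.rpow_le_rpow (by positivity) hZ5 hδ0.le
  have hY1 : 1 < Z ^ (1 / 8 : ℝ) := Real.one_lt_rpow (by linarith) (by norm_num)
  have hYZ : Z ^ (1 / 8 : ℝ) ≤ Z := by
    calc Z ^ (1 / 8 : ℝ) ≤ Z ^ (1 : ℝ) :=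
          Real.rpow_le_rpow_of_exponent_le (by linarith) (by norm_num)
      _ = Z := Real.rpow_one _
  have hYY : Z ^ (1 / 8 : ℝ) * Z ^ (1 / 8 : ℝ) = Z ^ (1 / 4 : ℝ) := by
    rw [← Real.rpow_add hZpos]; norm_num
  obtain ⟨hM1, hM2⟩ := hMR' (Z ^ δ) hzz
  have hlogz : Real.log (Z ^ δ) = δ * Real.log Z := Real.log_rpow hZpos δ
  rw [hlogz] at hM1 hM2
  set z : ℝ := Z ^ δ with hz
  set Y : ℝ := Z ^ (1 / 8 : ℝ) with hY
  have hMe0 : 0 ≤ Me z := by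
    refine le_trans ?_ hM1
    positivity
  have hmM0 : 0 ≤ (m : ℝ) * Me z := by positivity
  have hmM : (m : ℝ) * Me z ≤ B / δ := by
    calc (m : ℝ) * Me z ≤ (lam * Real.log Z) * (CM / (δ * Real.log Z)) :=
          mul_le_mul hml hM2 hMe0 (by positivity)
      _ = B / δ := by rw [hB]; field_simp
  have hWG : ∀ H : Finset (Fin m), H.card ≤ K → WG H z Y CL (LH z Y g H) := fun H hH =>
    (hLBH Z Y g m H hZtwo hY1.le hYZ (fun a => ⟨hg.nn a, hg.le a⟩) hH).1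
  have hH₀ : H₀ ≤ H₀' := by
    have := le_abs_self H₀
    rw [hH₀']; linarith
  have ha'2 : ((a' + m : ℕ) : ℝ) ≤ H₀' * Real.log Z :=
    ha'.trans (mul_le_mul_of_nonneg_right hH₀ hlogZ0.le)
  have ha2 : ((a + m : ℕ) : ℝ) ≤ H₀' * Real.log Z := by
    refine le_trans ?_ ha'2
    exact_mod_cast (by omega : a + m ≤ a' + m)
  have hxle : ∀ x : ℕ, x < a + m → (x : ℝ) ≤ H₀' * Real.log Z := fun x hx =>
    le_trans (by exact_mod_cast hx.le) ha2
  set P : Fin m ⊕ Fin m → ℕ := Sum.elim (pw a) (pw a') with hP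
  set L : Finset (Fin m ⊕ Fin m) → (Fin m ⊕ Fin m → ℕ) → ℝ :=
    fun G => ten2 (LH z Y g G.toLeft) (LH z Y g G.toRight) with hL
  have hPle : ∀ i, (P i : ℝ) ≤ H₀' * Real.log Z := by
    rintro (i | i)
    · refine hxle _ ?_
      simp only [hP, Sum.elim_inl, pw]
      have := i.2
      omega
    · refine le_trans ?_ ha'2
      have h : P (Sum.inr i) ≤ a' + m := by
        simp only [hP, Sum.elim_inr, pw]
        have := i.2
        omega
      exact_mod_cast h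
  have hGc : ((GG2 y₀ K m a a').card : ℝ) ≤ (H₀' * Real.log Z) ^ (2 * K) := by
    refine (card_GG2 y₀ K m a a').trans (pow_le_pow_left₀ (by positivity) ?_ _)
    have habs := abs_nonneg H₀
    have : (lam + 1) * Real.log Z ≤ H₀' * Real.log Z :=
      mul_le_mul_of_nonneg_right (by rw [hH₀']; linarith) hlogZ0.le
    nlinarith
  have hYY1 : 1 ≤ Y * Y := by nlinarith
  have hcardG : ∀ G ∈ GG2 y₀ K m a a', G.card ≤ 2 * K := by
    intro G hG
    obtain ⟨H, hH, H', hH', rfl⟩ := mem_GG2 hG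
    rw [card_disjSum]
    have := card_HS_mem hH
    have := card_HS_mem hH'
    omega
  have hWGG : ∀ G ∈ GG2 y₀ K m a a', WG (∅ ∪ G) z (Y * Y) (CL * CL) (L G) := by
    intro G hG
    obtain ⟨H, hH, H', hH', rfl⟩ := mem_GG2 hG
    rw [empty_union]
    simp only [hL, toLeft_disjSum, toRight_disjSum]
    have w := hWG H (card_HS_mem hH)
    have w' := hWG H' (card_HS_mem hH')
    exact (h9 (Fin m) (Fin m) z Y Y hY1.le hY1.le H H' CL CL _ _ _ _ hCL.le w w w' w').1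
  have hQB : ∀ G₁ ∈ GG2 y₀ K m a a', ∀ G₂ ∈ GG2 y₀ K m a a',
      QB z (Y * Y) (L G₁) (L G₂) =
        (if G₁.toLeft = G₂.toLeft then qq z Y g G₁.toLeft.card else 0) *
        (if G₁.toRight = G₂.toRight then qq z Y g G₁.toRight.card else 0) := by
    intro G₁ hG₁ G₂ hG₂
    obtain ⟨H₁, c1, H₁', c1', rfl⟩ := mem_GG2 hG₁
    obtain ⟨H₂, c2, H₂', c2', rfl⟩ := mem_GG2 hG₂
    simp only [hL, toLeft_disjSum, toRight_disjSum]
    exact QB_G h2 h9 hg hY1.le hCL.le hWG H₁ H₂ H₁' H₂' (card_HS_mem c1) (card_HS_mem c2)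
      (card_HS_mem c1') (card_HS_mem c2')
  have hQB0 : ∀ G₁ ∈ GG2 y₀ K m a a', ∀ G₂ ∈ GG2 y₀ K m a a', G₁ ≠ G₂ →
      QB z (Y * Y) (L G₁) (L G₂) = 0 := by
    intro G₁ hG₁ G₂ hG₂ hne
    rw [hQB G₁ hG₁ G₂ hG₂]
    by_cases e1 : G₁.toLeft = G₂.toLeft
    · by_cases e2 : G₁.toRight = G₂.toRight
      · exfalso
        apply hne
        rw [← toLeft_disjSum_toRight (u := G₁), ← toLeft_disjSum_toRight (u := G₂), e1, e2]
      · rw [if_neg e2, mul_zero]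
    · rw [if_neg e1, zero_mul]
  have hEX := hX₁ Z hZ1 (Fin m ⊕ Fin m) P ∅ (GG2 y₀ K m a a') (Y * Y) L (by simp) hcardG
    (inj_P haa) hPle hGc hYY1 (by rw [hYY]) hWGG hQB0
  have hqq := fun s => h3 z Y g s hY1 hg
  have hq0 : ∀ s, 0 ≤ qq z Y g s := fun s => (hqq s).1
  have hq1 : ∀ s, qq z Y g s ≤ 1 := fun s =>
    (hqq s).2.1.trans (pow_le_one₀ (hqq s).2.2.2.1 (hqq s).2.2.2.2.1)
  set NW : ℝ := NX Z / primorial y₀ with hNW
  have hNW0 : 0 ≤ NW := by positivity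
  -- the main term
  have hMAINeq : ∑ G ∈ GG2 y₀ K m a a', EE Z y₀ z ((∅ ∪ G).image P) *
      QB z (Y * Y) (L G) (L G) = NW * ∑ H ∈ HS (Ad y₀ a m) K, ∑ H' ∈ HS (Ad y₀ a' m) K,
        VS y₀ z (ps a H ∪ ps a' H') * (qq z Y g H.card * qq z Y g H'.card) := by
    have e1 : ∑ G ∈ GG2 y₀ K m a a', EE Z y₀ z ((∅ ∪ G).image P) *
        QB z (Y * Y) (L G) (L G) = ∑ G ∈ GG2 y₀ K m a a', EE Z y₀ z (G.image P) *
        (qq z Y g G.toLeft.card * qq z Y g G.toRight.card) := by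
      refine sum_congr rfl fun G hG => ?_
      rw [hQB G hG G hG, if_pos rfl, if_pos rfl, empty_union]
    rw [e1, sum_GG2, mul_sum]
    refine sum_congr rfl fun H _ => ?_
    rw [mul_sum]
    refine sum_congr rfl fun H' _ => ?_
    rw [hP, image_disjSum, toLeft_disjSum, toRight_disjSum]
    unfold EE
    rw [← hNW]
    ring
  have hL0 : 0 ≤ (1 + η) * ((m : ℝ) * Me z) := by positivity
  have hVSUa : ∀ s, s ≤ K → ∑ H ∈ (Ad y₀ a m).powersetCard s, VS y₀ z (ps a H) ≤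
      ((1 + η) * (m * Me z)) ^ s / (s ! : ℝ) * 1 := by
    intro s hs
    have h := hX₂ Z hZ2 ∅ m a s (Ad y₀ a m) (by simp) hs (by simp) ha2 htm
      (Subset.refl _) (disjoint_empty_left _)
    simpa only [empty_union, VS_empty] using h
  have hVSUb : ∀ H ∈ HS (Ad y₀ a m) K, ∀ s, s ≤ K →
      ∑ H' ∈ (Ad y₀ a' m).powersetCard s, VS y₀ z (ps a H ∪ ps a' H') ≤
        ((1 + η) * (m * Me z)) ^ s / (s ! : ℝ) * VS y₀ z (ps a H) := by
    intro H hH s hs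
    exact hX₂ Z hZ2 (ps a H) m a' s (Ad y₀ a' m) ((card_ps a H).trans (card_HS_mem hH)) hs
      (fun x hx => hxle x (mem_ps hx).2) ha'2 htm (Subset.refl _)
      (disj_ps haa _ (fun x hx => (mem_ps hx).2) _)
  have hMAIN : ∑ G ∈ GG2 y₀ K m a a', EE Z y₀ z ((∅ ∪ G).image P) *
      QB z (Y * Y) (L G) (L G) ≤ NW * TT z Y g K ((1 + η) * (m * Me z)) ^ 2 := by
    rw [hMAINeq]
    exact mul_le_mul_of_nonneg_left
      (main_bound y₀ K m a a' z _ (Ad y₀ a m) (Ad y₀ a' m) (qq z Y g) hq0 hL0 hVSUb hVSUa) hNW0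
  -- the pairs
  have hVCa : ∑ H ∈ HS (Ad y₀ a m) K, ∑ H' ∈ HS (Ad y₀ a m) K,
      VS y₀ z (ps a H ∪ ps a H') ≤ CV * (1 + m * Me z) ^ (2 * K) := by
    have h := hX₃ Z hZ3 ∅ m a (Ad y₀ a m) (by simp) (by simp) ha2 htm
      (Subset.refl _) (disjoint_empty_left _)
    simpa only [empty_union, VS_empty, mul_one] using h
  have hVCb : ∀ H₁ ∈ HS (Ad y₀ a m) K, ∀ H₂ ∈ HS (Ad y₀ a m) K,
      ∑ H ∈ HS (Ad y₀ a' m) K, ∑ H' ∈ HS (Ad y₀ a' m) K,
        VS y₀ z ((ps a H₁ ∪ ps a H₂) ∪ (ps a' H ∪ ps a' H')) ≤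
        CV * (1 + m * Me z) ^ (2 * K) * VS y₀ z (ps a H₁ ∪ ps a H₂) := by
    intro H₁ c1 H₂ c2
    have hlt : ∀ x ∈ ps a H₁ ∪ ps a H₂, x < a + m := by
      intro x hx
      rcases mem_union.mp hx with h | h
      · exact (mem_ps h).2
      · exact (mem_ps h).2
    refine hX₃ Z hZ3 (ps a H₁ ∪ ps a H₂) m a' (Ad y₀ a' m) ?_ (fun x hx => hxle x (hlt x hx))
      ha'2 htm (Subset.refl _) (disj_ps haa _ hlt _)
    have := card_union_le (ps a H₁) (ps a H₂)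
    have := card_ps a H₁
    have := card_ps a H₂
    have := card_HS_mem c1
    have := card_HS_mem c2
    omega
  have hD0 : 0 ≤ CV * (1 + m * Me z) ^ (2 * K) := by positivity
  have hQle : ∀ G ∈ GG2 y₀ K m a a', QB z (Y * Y) (L G) (L G) ≤ 1 := by
    intro G hG
    rw [hQB G hG G hG, if_pos rfl, if_pos rfl]
    exact mul_le_one₀ (hq1 _) (hq0 _) (hq1 _)
  have hCROSS : ∑ H ∈ GG2 y₀ K m a a', ∑ H' ∈ (GG2 y₀ K m a a').filter (fun H' => H' ≠ H),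
      EE Z y₀ z ((∅ ∪ (H ∪ H')).image P) *
        (QB z (Y * Y) (L H) (L H) + QB z (Y * Y) (L H') (L H')) ≤
      2 * NW * (CV * (1 + m * Me z) ^ (2 * K)) ^ 2 := by
    calc ∑ H ∈ GG2 y₀ K m a a', ∑ H' ∈ (GG2 y₀ K m a a').filter (fun H' => H' ≠ H),
        EE Z y₀ z ((∅ ∪ (H ∪ H')).image P) *
          (QB z (Y * Y) (L H) (L H) + QB z (Y * Y) (L H') (L H'))
        ≤ ∑ H ∈ GG2 y₀ K m a a', ∑ H' ∈ GG2 y₀ K m a a', EE Z y₀ z ((H ∪ H').image P) * 2 := by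
          refine sum_le_sum fun H hH => ?_
          calc ∑ H' ∈ (GG2 y₀ K m a a').filter (fun H' => H' ≠ H),
              EE Z y₀ z ((∅ ∪ (H ∪ H')).image P) *
                (QB z (Y * Y) (L H) (L H) + QB z (Y * Y) (L H') (L H'))
              ≤ ∑ H' ∈ (GG2 y₀ K m a a').filter (fun H' => H' ≠ H),
                EE Z y₀ z ((H ∪ H').image P) * 2 := by
                refine sum_le_sum fun H' hH' => ?_
                have hm := (mem_filter.mp hH').1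
                have q1 := hQle H hH
                have q2 := hQle H' hm
                rw [empty_union]
                exact mul_le_mul_of_nonneg_left (by linarith) (EE_nonneg _ _ _ _)
            _ ≤ ∑ H' ∈ GG2 y₀ K m a a', EE Z y₀ z ((H ∪ H').image P) * 2 :=
                sum_le_sum_of_subset_of_nonneg (filter_subset _ _)
                  (fun _ _ _ => mul_nonneg (EE_nonneg _ _ _ _) (by norm_num))
      _ = 2 * NW * ∑ H₁ ∈ HS (Ad y₀ a m) K, ∑ H₁' ∈ HS (Ad y₀ a' m) K,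
            ∑ H₂ ∈ HS (Ad y₀ a m) K, ∑ H₂' ∈ HS (Ad y₀ a' m) K,
            VS y₀ z ((ps a H₁ ∪ ps a' H₁') ∪ (ps a H₂ ∪ ps a' H₂')) := by
          rw [sum_GG2, mul_sum]
          refine sum_congr rfl fun H₁ _ => ?_
          rw [mul_sum]
          refine sum_congr rfl fun H₁' _ => ?_
          rw [sum_GG2, mul_sum]
          refine sum_congr rfl fun H₂ _ => ?_
          rw [mul_sum]
          refine sum_congr rfl fun H₂' _ => ?_
          rw [image_union, hP, image_disjSum, image_disjSum]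
          unfold EE
          rw [← hNW]
          ring
      _ ≤ 2 * NW * (CV * (1 + m * Me z) ^ (2 * K)) ^ 2 :=
          mul_le_mul_of_nonneg_left (cross_bound y₀ K m a a' z _ (Ad y₀ a m) (Ad y₀ a' m)
            hD0 hVCb hVCa) (by positivity)
  -- the sum
  have hsum : ∑ n ∈ Om Z y₀, tw m y₀ K z Y g a n ^ 2 * tw m y₀ K z Y g a' n ^ 2 =
      ∑ n ∈ OS Z y₀ z ((∅ : Finset (Fin m ⊕ Fin m)).image P),
        (∑ H ∈ GG2 y₀ K m a a', if RH y₀ z (H.image P) n then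
          LG z (Y * Y) (L H) P n else 0) ^ 2 := by
    rw [image_empty, OS_empty]
    refine sum_congr rfl fun n _ => ?_
    rw [← tw_mul_tw h9 hY1.le hCL.le a a' n hWG, mul_pow]
  have hfin := (abs_le.mp hEX).2
  have hD2 : (CV * (1 + (m : ℝ) * Me z) ^ (2 * K)) ^ 2 ≤ CV ^ 2 * PB := by
    have e : (CV * (1 + (m : ℝ) * Me z) ^ (2 * K)) ^ 2 =
        CV ^ 2 * (1 + (m : ℝ) * Me z) ^ (4 * K) := by
      rw [mul_pow, ← pow_mul]; congr 2; omega
    rw [e, hPB]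
    refine mul_le_mul_of_nonneg_left ?_ (sq_nonneg _)
    exact pow_le_pow_left₀ (by linarith) (by linarith) _
  have hηD : ηF * (2 * NW * (CV * (1 + (m : ℝ) * Me z) ^ (2 * K)) ^ 2) ≤ η / 4 * NW := by
    have h : ηF * (CV ^ 2 * PB) ≤ η / 8 := by
      have h' : ηF * (8 * (1 + CV ^ 2) * PB) = 8 * (ηF * (CV ^ 2 * PB)) + 8 * (ηF * PB) := by
        ring
      have h'' : 0 ≤ ηF * PB := by positivity
      rw [hηFR] at h'
      linarith
    calc ηF * (2 * NW * (CV * (1 + (m : ℝ) * Me z) ^ (2 * K)) ^ 2)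
        = 2 * NW * (ηF * (CV * (1 + (m : ℝ) * Me z) ^ (2 * K)) ^ 2) := by ring
      _ ≤ 2 * NW * (ηF * (CV ^ 2 * PB)) :=
          mul_le_mul_of_nonneg_left (mul_le_mul_of_nonneg_left hD2 hηF0.le) (by positivity)
      _ ≤ 2 * NW * (η / 8) := mul_le_mul_of_nonneg_left h (by positivity)
      _ = η / 4 * NW := by ring
  have hZlog : Z / Real.log Z ^ 1 ≤ η / 2 * NW := by
    have hN : 3 * Z ≤ (NX Z : ℝ) := Nat.le_ceil _
    have hl : 4 * W / η ≤ Real.log Z := by linarith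
    rw [pow_one, div_le_iff₀ hlogZ0]
    have hNW3 : 3 * Z / W ≤ NW := by
      rw [hNW, ← hW]
      exact div_le_div_of_nonneg_right hN hW0.le
    calc Z ≤ 6 * Z := by linarith
      _ = η / 2 * (3 * Z / W) * (4 * W / η) := by field_simp; ring
      _ ≤ η / 2 * NW * Real.log Z := by
          refine mul_le_mul ?_ hl hWη.le (by positivity)
          exact mul_le_mul_of_nonneg_left hNW3 (by positivity)
  have hT2 : 0 ≤ NW * TT z Y g K ((1 + η) * (m * Me z)) ^ 2 := by positivity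
  rw [hsum]
  set M₁ := ∑ G ∈ GG2 y₀ K m a a', EE Z y₀ z ((∅ ∪ G).image P) *
      QB z (Y * Y) (L G) (L G) with hM₁
  have hM0 : 0 ≤ M₁ := by
    refine sum_nonneg fun G hG => mul_nonneg (EE_nonneg _ _ _ _) ?_
    rw [hQB G hG G hG, if_pos rfl, if_pos rfl]
    exact mul_nonneg (hq0 _) (hq0 _)
  have s1 : ηF * M₁ ≤ η * (NW * TT z Y g K ((1 + η) * (m * Me z)) ^ 2) :=
    mul_le_mul hηF1 hMAIN hM0 hη.le
  have s2 := mul_le_mul_of_nonneg_left hCROSS hηF0.le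
  have s3 : 0 ≤ η * NW := by positivity
  calc _ ≤ M₁ + (ηF * M₁ + ηF * (2 * NW * (CV * (1 + (m : ℝ) * Me z) ^ (2 * K)) ^ 2) +
          Z / Real.log Z ^ 1) := by linarith
    _ ≤ NW * TT z Y g K ((1 + η) * (m * Me z)) ^ 2 +
          (η * (NW * TT z Y g K ((1 + η) * (m * Me z)) ^ 2) + η / 4 * NW + η / 2 * NW) := by
        linarith
    _ ≤ NW * ((1 + η) * TT z Y g K ((1 + η) * (m * Me z)) ^ 2 + η) := by
        linarith

end Pool.Agent.H86.RP
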